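import Mathlib

set_option autoImplicit false

namespace Pool.Agent.Results.MP_271f8e_al.CuspInduction

open scoped MatrixGroups
open Polynomial

/-- A local ring whose depth equals its Krull dimension: the maximal ideal contains a regular
sequence whose length is the Krull dimension. -/
def IsCMLocal (S : Type) [CommRing S] [IsLocalRing S] : Prop :=
  ∃ rs : List S, (∀ r ∈ rs, r ∈ IsLocalRing.maximalIdeal S) ∧
    RingTheory.Sequence.IsRegular S rs ∧ (rs.length : WithBot ℕ∞) = ringKrullDim S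

/-- Cohen-Macaulay commutative rings. -/
def IsCM (S : Type) [CommRing S] : Prop :=
  IsNoetherianRing S ∧ ∀ (P : Ideal S) [P.IsPrime], IsCMLocal (Localization.AtPrime P)

variable (k : Type) [Field k]

/-- The Borel subgroup of upper triangular matrices in `SL 2 k`. -/
def Borel : Subgroup SL(2, k) where
  carrier := {g | g 1 0 = 0}
  one_mem' := by simp
  mul_mem' := by
    intro a b ha hb
    simp only [Set.mem_ofPred_eq] at ha hb ⊢
    simp [Matrix.mul_apply, Fin.sum_univ_two, ha, hb]
  inv_mem' := by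
    intro a ha
    simp only [Set.mem_ofPred_eq] at ha ⊢
    simp [Matrix.SpecialLinearGroup.SL2_inv_expl, ha]

/-- Morphisms from a closed subvariety `ι : X → SL 2 k` to a vector space `M`: finite sums of
maps `x ↦ P(ι x) • m` with `P` a polynomial in the matrix entries and `m ∈ M`. -/
def regularMaps {X : Type} (ι : X → SL(2, k)) (M : Type) [AddCommGroup M] [Module k M] :
    Submodule k (X → M) :=
  Submodule.span k {f | ∃ (P : MvPolynomial (Fin 2 × Fin 2) k) (m : M),
    f = fun x => MvPolynomial.eval (fun ij => ι x ij.1 ij.2) P • m}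

variable {k}

/-- The action `ρ` of the Borel subgroup by algebra automorphisms is rational. -/
def IsRational {R : Type} [CommRing R] [Algebra k R] (ρ : Borel k →* (R ≃ₐ[k] R)) : Prop :=
  ∀ r : R, (fun b : Borel k => ρ b r) ∈ regularMaps k (fun b : Borel k => (b : SL(2, k))) R

lemma reg_mul {X R : Type} [CommRing R] [Algebra k R] (ι : X → SL(2, k)) {f g : X → R}
    (hf : f ∈ regularMaps k ι R) (hg : g ∈ regularMaps k ι R) : f * g ∈ regularMaps k ι R := by
  induction hf using Submodule.span_induction with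
  | mem f hf =>
    induction hg using Submodule.span_induction with
    | mem g hg =>
      obtain ⟨P, m, rfl⟩ := hf
      obtain ⟨Q, n, rfl⟩ := hg
      refine Submodule.subset_span ⟨P * Q, m * n, ?_⟩
      funext x
      simp [mul_smul, smul_comm (MvPolynomial.eval _ P)]
    | zero => simp
    | add u v _ _ hu hv => rw [mul_add]; exact Submodule.add_mem _ hu hv
    | smul c u _ hu => rw [mul_smul_comm]; exact Submodule.smul_mem _ _ hu
  | zero => simp
  | add u v _ _ hu hv => rw [add_mul]; exact Submodule.add_mem _ hu hv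
  | smul c u _ hu => rw [smul_mul_assoc]; exact Submodule.smul_mem _ _ hu

/-- The induced algebra: morphisms `f : G → R` with `f (g b) = b⁻¹ • f g`. -/
def ind {R : Type} [CommRing R] [Algebra k R] (ρ : Borel k →* (R ≃ₐ[k] R)) :
    Subalgebra k (SL(2, k) → R) where
  carrier := {f | f ∈ regularMaps k id R ∧
    ∀ (g : SL(2, k)) (b : Borel k), f (g * b) = ρ b⁻¹ (f g)}
  mul_mem' := by
    rintro f g ⟨hf, hf'⟩ ⟨hg, hg'⟩
    exact ⟨reg_mul _ hf hg, fun x b => by simp [hf', hg']⟩
  add_mem' := by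
    rintro f g ⟨hf, hf'⟩ ⟨hg, hg'⟩
    exact ⟨Submodule.add_mem _ hf hg, fun x b => by simp [hf', hg']⟩
  algebraMap_mem' := by
    intro c
    refine ⟨Submodule.subset_span ⟨1, algebraMap k R c, ?_⟩, fun x b => by simp⟩
    funext x; simp

section example_

variable (k) in
/-- the cuspidal cubic ring `k[t^2, t^3]` -/
def Cusp : Subalgebra k k[X] where
  carrier := {f | f.coeff 1 = 0}
  mul_mem' := by
    intro f g hf hg
    simp only [Set.mem_ofPred_eq] at hf hg ⊢
    simp [coeff_mul, Finset.Nat.antidiagonal_succ, hf, hg]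
  add_mem' := by
    intro f g hf hg
    simp only [Set.mem_ofPred_eq] at hf hg ⊢
    simp [hf, hg]
  algebraMap_mem' := by intro c; simp [coeff_C]

lemma mem_Cusp {f : k[X]} : f ∈ Cusp k ↔ f.coeff 1 = 0 := Iff.rfl

/-- scaling -/
noncomputable def sc (c : k) : Cusp k →ₐ[k] Cusp k :=
  AlgHom.codRestrict ((aeval (C c * X)).comp (Cusp k).val) (Cusp k) (by
    intro f
    rw [mem_Cusp]
    have := f.2
    rw [mem_Cusp] at this
    simp [← comp_eq_aeval, this])

lemma sc_coeff (c : k) (f : Cusp k) (n : ℕ) :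
    (sc c f : k[X]).coeff n = (f : k[X]).coeff n * c ^ n := by
  simp [sc, ← comp_eq_aeval]

lemma sc_one : sc (1 : k) = AlgHom.id k _ := by
  ext f n; simp [sc_coeff]

lemma sc_mul (c d : k) : sc (c * d) = (sc c).comp (sc d) := by
  ext f n; simp [sc_coeff]; ring

lemma b_mul (a b : Borel k) : (a * b : Borel k).1 1 1 = a.1 1 1 * b.1 1 1 := by
  have ha : a.1 1 0 = 0 := a.2
  simp [Matrix.mul_apply, Fin.sum_univ_two, ha]

/-- the action -/
noncomputable def act : Borel k →* (Cusp k ≃ₐ[k] Cusp k) where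
  toFun b := AlgEquiv.ofAlgHom (sc (b.1 1 1)) (sc ((b⁻¹).1 1 1))
    (by rw [← sc_mul, ← b_mul]; simp [sc_one]) (by rw [← sc_mul, ← b_mul]; simp [sc_one])
  map_one' := by ext f n; simp [sc_coeff]
  map_mul' a b := by
    ext f n
    simp only [AlgEquiv.ofAlgHom_apply, AlgEquiv.mul_apply, b_mul, sc_coeff]
    ring

lemma act_coeff (b : Borel k) (f : Cusp k) (n : ℕ) :
    (act b f : k[X]).coeff n = (f : k[X]).coeff n * (b.1 1 1) ^ n := sc_coeff _ _ _

lemma act_inv_coeff (b : Borel k) (f : Cusp k) (n : ℕ) :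
    (act b⁻¹ f : k[X]).coeff n = (f : k[X]).coeff n * (b.1 0 0) ^ n := by
  rw [act_coeff]
  simp [Matrix.SpecialLinearGroup.SL2_inv_expl]

lemma b00_ne (b : Borel k) : b.1 0 0 ≠ 0 := by
  have hb : b.1 1 0 = 0 := b.2
  have := b.1.det_coe
  rw [Matrix.det_fin_two, hb] at this
  intro h
  simp [h] at this

lemma mono_mem (f : Cusp k) (n : ℕ) : monomial n ((f : k[X]).coeff n) ∈ Cusp k := by
  rw [mem_Cusp, coeff_monomial]
  split_ifs with h
  · subst h; exact f.2
  · rfl

lemma act_rational : IsRational (act (k := k)) := by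
  intro f
  have : (fun b : Borel k => act b f) = ∑ n ∈ (f : k[X]).support, fun b : Borel k =>
      MvPolynomial.eval (fun ij => (b : SL(2, k)) ij.1 ij.2)
        (MvPolynomial.X ((1 : Fin 2), (1 : Fin 2)) ^ n) • (⟨_, mono_mem f n⟩ : Cusp k) := by
    funext b
    ext m
    simp only [act_coeff, Finset.sum_apply, map_pow, MvPolynomial.eval_X,
      AddSubmonoidClass.coe_finsetSum, SetLike.val_smul, finsetSum_coeff, coeff_smul,
      coeff_monomial, smul_eq_mul, mul_ite, mul_zero, Finset.sum_ite_eq', mem_support_iff]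
    split_ifs with h
    · ring
    · simp at h; simp [h]
  rw [this]
  exact Submodule.sum_mem _ fun n _ => Submodule.subset_span ⟨_, _, rfl⟩

lemma cusp_noeth : IsNoetherianRing (Cusp k) := by
  classical
  have : (Cusp k).FG := by
    refine ⟨{X ^ 2, X ^ 3}, le_antisymm ?_ ?_⟩
    · rw [Algebra.adjoin_le_iff]
      intro f hf
      simp only [Finset.coe_insert, Finset.coe_singleton, Set.mem_insert_iff,
        Set.mem_singleton_iff] at hf
      rcases hf with rfl | rfl <;> simp [mem_Cusp, coeff_X_pow]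
    · intro f hf
      rw [f.as_sum_support]
      refine Subalgebra.sum_mem _ fun n hn => ?_
      have hn1 : n ≠ 1 := by
        rintro rfl
        exact (mem_support_iff.1 hn) hf
      rw [← C_mul_X_pow_eq_monomial]
      refine Subalgebra.mul_mem _ (Subalgebra.algebraMap_mem _ _) ?_
      have h2 : (X ^ 2 : k[X]) ∈ Algebra.adjoin k (({X ^ 2, X ^ 3} : Finset k[X]) : Set k[X]) :=
        Algebra.subset_adjoin (by simp)
      have h3 : (X ^ 3 : k[X]) ∈ Algebra.adjoin k (({X ^ 2, X ^ 3} : Finset k[X]) : Set k[X]) :=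
        Algebra.subset_adjoin (by simp)
      rcases Nat.even_or_odd' n with ⟨a, rfl | rfl⟩
      · rw [pow_mul]; exact Subalgebra.pow_mem _ h2 _
      · obtain ⟨a, rfl⟩ : ∃ a', a = a' + 1 := ⟨a - 1, by omega⟩
        rw [show 2 * (a + 1) + 1 = 2 * a + 3 by ring, pow_add, pow_mul]
        exact Subalgebra.mul_mem _ (Subalgebra.pow_mem _ h2 _) h3
  exact isNoetherianRing_of_fg this

lemma cusp_integral : Algebra.IsIntegral (Cusp k) k[X] := by
  constructor
  intro f
  have h1 : f - C (f.coeff 1) * X ∈ Cusp k := by simp [mem_Cusp]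
  have h2 : (X ^ 2 : k[X]) ∈ Cusp k := by simp [mem_Cusp, coeff_X_pow]
  have hX : IsIntegral (Cusp k) (X : k[X]) :=
    IsIntegral.of_pow (n := 2) (by norm_num) (isIntegral_algebraMap (x := (⟨_, h2⟩ : Cusp k)))
  have h3 : IsIntegral (Cusp k) (C (f.coeff 1)) :=
    isIntegral_algebraMap (x := (⟨_, (Cusp k).algebraMap_mem (f.coeff 1)⟩ : Cusp k))
  have h4 : IsIntegral (Cusp k) (f - C (f.coeff 1) * X) :=
    isIntegral_algebraMap (x := (⟨_, h1⟩ : Cusp k))
  simpa using h4.add (h3.mul hX)

lemma cusp_dim : ringKrullDim (Cusp k) ≤ 1 := by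
  have := cusp_integral (k := k)
  rw [← Nat.cast_one, ← Ring.krullDimLE_iff]
  refine Ring.krullDimLE_one_iff_of_isPrime_bot.mpr fun P hP hP' => ?_
  obtain ⟨Q, -, hQ, rfl⟩ := Ideal.exists_ideal_over_prime_of_isIntegral P (⊥ : Ideal k[X])
    (by
      rw [← RingHom.ker_eq_comap_bot, (RingHom.injective_iff_ker_eq_bot _).1 Subtype.val_injective]
      exact bot_le)
  have hQ0 : Q ≠ ⊥ := by
    rintro rfl
    apply hP
    rw [← RingHom.ker_eq_comap_bot, (RingHom.injective_iff_ker_eq_bot _).1 Subtype.val_injective]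
  have : Q.IsMaximal := hQ.isMaximal hQ0
  exact Ideal.isMaximal_comap_of_isIntegral_of_isMaximal Q

lemma cusp_CM : IsCM (Cusp k) := by
  have := cusp_noeth (k := k)
  refine ⟨this, fun P _ => ?_⟩
  have hd := IsLocalization.AtPrime.ringKrullDim_eq_height P (Localization.AtPrime P)
  by_cases hP : P = ⊥
  · refine ⟨[], by simp, RingTheory.Sequence.IsRegular.nil _ _, ?_⟩
    rw [hd, Ideal.height_eq_zero_iff_eq_bot.2 hP]
    simp
  · obtain ⟨a, ha, ha0⟩ := Submodule.exists_mem_ne_zero_of_ne_bot hP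
    have hm : algebraMap _ (Localization.AtPrime P) a ∈ IsLocalRing.maximalIdeal _ :=
      (IsLocalization.AtPrime.to_map_mem_maximal_iff _ P a).2 ha
    refine ⟨[algebraMap _ _ a], fun r hr => List.mem_singleton.1 hr ▸ hm, ?_, ?_⟩
    · rw [IsLocalRing.isRegular_iff_isWeaklyRegular_of_subset_maximalIdeal
        (fun r hr => List.mem_singleton.1 hr ▸ hm),
        RingTheory.Sequence.isWeaklyRegular_singleton_iff]
      refine IsSMulRegular.of_ne_zero ?_
      rw [Ne, IsLocalization.to_map_eq_zero_iff _ P.primeCompl_le_nonZeroDivisors]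
      exact ha0
    · rw [hd]
      have h1 : (P.height : WithBot ℕ∞) ≤ 1 :=
        Ideal.height_le_ringKrullDim_of_isPrime.trans cusp_dim
      have h2 : P.height ≠ 0 := fun h => hP (Ideal.height_eq_zero_iff_eq_bot.1 h)
      have h3 : P.height ≤ 1 := by exact_mod_cast h1
      have h4 : P.height = 1 := le_antisymm h3 (Order.one_le_iff_ne_zero.2 h2)
      rw [h4]
      simp

/-- lower unipotent elements -/
def uu (s : k) : SL(2, k) := ⟨!![1, 0; s, 1], by simp⟩
/-- the other chart -/
def vv (r : k) : SL(2, k) := ⟨!![r, -1; 1, 0], by simp⟩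

lemma reg_poly {f : SL(2, k) → Cusp k} (hf : f ∈ regularMaps k id (Cusp k)) (γ : k → SL(2, k))
    (p : Fin 2 → Fin 2 → k[X]) (hp : ∀ s i j, γ s i j = (p i j).eval s) :
    ∃ F : k[X][X], ∀ s, (f (γ s) : k[X]) = F.eval (C s) := by
  induction hf using Submodule.span_induction with
  | mem f hf =>
    obtain ⟨P, m, rfl⟩ := hf
    refine ⟨(MvPolynomial.aeval (fun ij => p ij.1 ij.2) P).map C * C (m : k[X]), fun s => ?_⟩
    have : MvPolynomial.eval (fun ij : Fin 2 × Fin 2 => γ s ij.1 ij.2) P =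
        (MvPolynomial.aeval (fun ij => p ij.1 ij.2) P).eval s := by
      induction P using MvPolynomial.induction_on with
      | C a => simp
      | add P Q hP hQ => simp [hP, hQ]
      | mul_X P i hP => rw [map_mul, map_mul, hP]; simp [hp]
    simp only [id, this, SetLike.val_smul, eval_mul, eval_C, eval_map, eval₂_at_apply]
    rw [smul_eq_C_mul]
  | zero => exact ⟨0, by simp⟩
  | add u v _ _ hu hv =>
    obtain ⟨F, hF⟩ := hu
    obtain ⟨G, hG⟩ := hv
    exact ⟨F + G, fun s => by simp [hF, hG]⟩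
  | smul c u _ hu =>
    obtain ⟨F, hF⟩ := hu
    exact ⟨C (C c) * F, fun s => by simp [hF, smul_eq_C_mul]⟩

lemma reg_uu (f : ind (act (k := k))) : ∃ F : k[X][X], ∀ s, (f.1 (uu s) : k[X]) = F.eval (C s) :=
  reg_poly f.2.1 uu ![![1, 0], ![X, 1]] (by
    intro s i j; fin_cases i <;> fin_cases j <;> simp [uu])

lemma reg_vv (f : ind (act (k := k))) : ∃ F : k[X][X], ∀ s, (f.1 (vv s) : k[X]) = F.eval (C s) :=
  reg_poly f.2.1 vv ![![X, -1], ![1, 0]] (by
    intro s i j; fin_cases i <;> fin_cases j <;> simp [vv])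

lemma transport (f : ind (act (k := k))) (g h : SL(2, k))
    (hb : h 0 0 * g 1 0 = h 1 0 * g 0 0) :
    ∃ c : k, c ≠ 0 ∧ ∀ n, (f.1 g : k[X]).coeff n = (f.1 h : k[X]).coeff n * c ^ n := by
  have hm : h⁻¹ * g ∈ Borel k := by
    change (h⁻¹ * g) 1 0 = 0
    rw [Matrix.SpecialLinearGroup.coe_mul, Matrix.SpecialLinearGroup.SL2_inv_expl]
    simp [Matrix.mul_apply, Fin.sum_univ_two]
    linear_combination hb
  refine ⟨_, b00_ne ⟨_, hm⟩, fun n => ?_⟩
  have := f.2.2 h ⟨_, hm⟩
  simp only [mul_inv_cancel_left] at this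
  rw [this, act_inv_coeff]

lemma inf_C [Infinite k] (F : k[X][X]) (h : ∀ s : k, s ≠ 0 → F.eval (C s) = 0) : F = 0 := by
  apply F.eq_zero_of_infinite_isRoot
  refine Set.Infinite.mono (s := C '' {0}ᶜ) ?_
    (((Set.finite_singleton (0 : k)).infinite_compl).image C_injective.injOn)
  rintro _ ⟨s, hs, rfl⟩
  exact h s hs

lemma ext0 [Infinite k] (f : ind (act (k := k))) (h : ∀ s, f.1 (uu s) = 0) : f = 0 := by
  have h1 : ∀ g : SL(2, k), g 0 0 ≠ 0 → f.1 g = 0 := by
    intro g hg
    obtain ⟨c, -, hc⟩ := transport f g (uu (g 1 0 / g 0 0)) (by simp [uu]; field_simp)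
    ext n
    simp [hc, h]
  obtain ⟨F, hF⟩ := reg_vv f
  have hF0 : F = 0 := inf_C F fun s hs => by rw [← hF, h1 _ (by simpa [vv] using hs)]; rfl
  ext g n
  by_cases hg : g 0 0 = 0
  · obtain ⟨c, -, hc⟩ := transport f g (vv 0) (by simp [vv, hg])
    simp [hc, hF, hF0]
  · simp [h1 g hg]

lemma ind_domain [Infinite k] : IsDomain (ind (act (k := k))) := by
  have : NoZeroDivisors (ind (act (k := k))) := by
    constructor
    intro f g hfg
    obtain ⟨F, hF⟩ := reg_uu f
    obtain ⟨G, hG⟩ := reg_uu g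
    have : F * G = 0 := inf_C _ fun s _ => by
      rw [eval_mul, ← hF, ← hG]
      have := congrArg (fun φ : ind (act (k := k)) => (φ.1 (uu s) : k[X])) hfg
      simpa using this
    rcases mul_eq_zero.1 this with h | h
    · left; exact ext0 f fun s => Subtype.ext (by simp [hF, h])
    · right; exact ext0 g fun s => Subtype.ext (by simp [hG, h])
  have : Nontrivial (ind (act (k := k))) := inferInstance
  exact NoZeroDivisors.to_isDomain (ind (act (k := k)))

lemma const0 [Infinite k] (f : ind (act (k := k))) (g : SL(2, k)) :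
    (f.1 g : k[X]).coeff 0 = (f.1 1 : k[X]).coeff 0 := by
  obtain ⟨F, hF⟩ := reg_uu f
  obtain ⟨G, hG⟩ := reg_vv f
  let p : k[X] := F.map constantCoeff
  let q : k[X] := G.map constantCoeff
  have hp : ∀ s, (f.1 (uu s) : k[X]).coeff 0 = p.eval s := by
    intro s
    rw [hF, ← constantCoeff_apply, ← eval₂_at_apply, eval_map]
    simp
  have hq : ∀ s, (f.1 (vv s) : k[X]).coeff 0 = q.eval s := by
    intro s
    rw [hG, ← constantCoeff_apply, ← eval₂_at_apply, eval_map]
    simp
  have hpq : ∀ s : k, s ≠ 0 → p.eval s = q.eval s⁻¹ := by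
    intro s hs
    obtain ⟨c, -, hc⟩ := transport f (uu s) (vv s⁻¹) (by simp [uu, vv, hs])
    rw [← hp, ← hq, hc]; simp
  have hinf : ∀ A : k[X], (∀ s : k, s ≠ 0 → A.eval s = 0) → A = 0 := fun A hA =>
    A.eq_zero_of_infinite_isRoot
      (((Set.finite_singleton (0 : k)).infinite_compl).mono fun s hs => hA s hs)
  have h1 : X ^ q.natDegree * p = q.reverse := by
    rw [← sub_eq_zero]
    refine hinf _ fun s hs => ?_
    let _i : Invertible s⁻¹ := invertibleOfNonzero (inv_ne_zero hs)
    have := eval₂_reverse_mul_pow (RingHom.id k) s⁻¹ q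
    simp only [invOf_eq_inv, inv_inv, eval₂_id] at this
    simp only [eval_sub, eval_mul, eval_pow, eval_X, hpq s hs, ← this]
    rw [inv_pow]
    field_simp
    ring
  have h2 : p.natDegree = 0 := by
    by_cases hp0 : p = 0
    · simp [hp0]
    · have := q.reverse_natDegree_le
      rw [← h1, natDegree_X_pow_mul _ hp0] at this
      omega
  obtain ⟨c, hc⟩ := natDegree_eq_zero.1 h2
  have h3 : q = C c := by
    rw [← sub_eq_zero]
    refine hinf _ fun s hs => ?_
    have := hpq s⁻¹ (inv_ne_zero hs)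
    rw [inv_inv, ← hc] at this
    simp [← this]
  have h4 : ∀ g : SL(2, k), (f.1 g : k[X]).coeff 0 = c := by
    intro g
    by_cases hg : g 0 0 = 0
    · obtain ⟨c, -, hc⟩ := transport f g (vv 0) (by simp [vv, hg])
      simp [hc, hq, h3]
    · obtain ⟨c', -, hc'⟩ := transport f g (uu (g 1 0 / g 0 0)) (by simp [uu]; field_simp)
      simp [hc', hp, ← hc]
  rw [h4, h4]

/-- multiplication by `t` after removing the constant term -/
noncomputable def TT : Cusp k →ₗ[k] Cusp k where
  toFun m := ⟨X * ((m : k[X]) - C ((m : k[X]).coeff 0)), by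
    rw [mem_Cusp, show (1 : ℕ) = 0 + 1 from rfl, coeff_X_mul]; simp⟩
  map_add' a b := Subtype.ext (by simp; ring)
  map_smul' c a := Subtype.ext (by simp [smul_eq_C_mul]; ring)

lemma TT_act (b : Borel k) (m : Cusp k) : act b⁻¹ (TT m) = b.1 0 0 • TT (act b⁻¹ m) := by
  ext n
  rw [act_inv_coeff]
  simp only [TT, LinearMap.coe_mk, AddHom.coe_mk, SetLike.val_smul, coeff_smul, smul_eq_mul]
  cases n with
  | zero => simp
  | succ n =>
    rw [coeff_X_mul, coeff_X_mul, coeff_sub, coeff_sub, act_inv_coeff, act_inv_coeff]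
    cases n with
    | zero => simp
    | succ n => simp [coeff_C]; ring

lemma gb_col (g : SL(2, k)) (b : Borel k) (i : Fin 2) : (g * b.1) i 0 = g i 0 * b.1 0 0 := by
  have hb : b.1 1 0 = 0 := b.2
  simp [Matrix.mul_apply, Fin.sum_univ_two, hb]

/-- multiplication by `x t` -/
noncomputable def xT (f : ind (act (k := k))) : ind (act (k := k)) :=
  ⟨fun g => g 0 0 • TT (f.1 g), by
    constructor
    · have h := f.2.1
      generalize f.1 = φ at h
      induction h using Submodule.span_induction with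
      | mem f hf =>
        obtain ⟨P, m, rfl⟩ := hf
        refine Submodule.subset_span ⟨MvPolynomial.X (0, 0) * P, TT m, ?_⟩
        funext x
        simp [mul_smul]
      | zero =>
        convert Submodule.zero_mem (regularMaps k id (Cusp k)) using 1
        funext x; simp
      | add u v _ _ hu hv =>
        convert Submodule.add_mem _ hu hv using 1
        funext x; simp
      | smul c u _ hu =>
        convert Submodule.smul_mem _ c hu using 1
        funext x; simp [smul_comm c]
    · intro g b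
      simp only [f.2.2, map_smul, TT_act, gb_col, mul_smul]⟩

/-- the elements `x^2 t^2` and `y^2 t^2` -/
noncomputable def sq (i : Fin 2) : ind (act (k := k)) :=
  ⟨fun g => (g i 0) ^ 2 • (⟨X ^ 2, by simp [mem_Cusp, coeff_X_pow]⟩ : Cusp k), by
    constructor
    · refine Submodule.subset_span ⟨MvPolynomial.X (i, 0) ^ 2,
        ⟨X ^ 2, by simp [mem_Cusp, coeff_X_pow]⟩, ?_⟩
      funext x
      simp
    · intro g b
      ext n
      rw [act_inv_coeff]
      simp only [gb_col, SetLike.val_smul, coeff_smul, coeff_X_pow, smul_eq_mul]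
      split_ifs with h
      · subst h; ring
      · simp⟩

/-- evaluation at a point -/
def evAt (g : SL(2, k)) : ind (act (k := k)) →+* k[X] where
  toFun f := f.1 g
  map_one' := rfl
  map_mul' _ _ := rfl
  map_zero' := rfl
  map_add' _ _ := rfl

lemma abs_not_CM {S Γ : Type} [CommRing S] [IsDomain S] (ev : Γ → S →+* k[X]) (g1 : Γ)
    (cf : Γ → k) (hconst : ∀ f g, (ev g f).coeff 0 = (ev g1 f).coeff 0)
    (hone : ∀ f g, (ev g f).coeff 1 = 0)
    (hinj : ∀ f, (∀ g, cf g = 1 → ev g f = 0) → f = 0)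
    (xT : S → S)
    (hxT : ∀ f, (ev g1 f).coeff 0 = 0 → ∀ g, ev g (xT f) = C (cf g) * X * ev g f)
    (e1 e2 : S) (he1 : e1 ≠ 0) (he1' : ev g1 e1 = 0) (he2 : ev g1 e2 = X ^ 2) : ¬ IsCM S := by
  let m : Ideal S := RingHom.ker (constantCoeff.comp (ev g1))
  have hm : ∀ f, f ∈ m ↔ (ev g1 f).coeff 0 = 0 := fun f => Iff.rfl
  have : m.IsPrime := RingHom.ker_isPrime _
  let P1 : Ideal S := RingHom.ker (ev g1)
  have : P1.IsPrime := RingHom.ker_isPrime _
  have h01 : ⊥ < P1 := by
    refine bot_lt_iff_ne_bot.2 fun h => ?_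
    have h1 : e1 ∈ P1 := he1'
    rw [h, Ideal.mem_bot] at h1
    exact he1 h1
  have h12 : P1 < m := by
    refine lt_of_le_of_ne (fun f hf => ?_) fun h => ?_
    · simp only [m, P1, RingHom.mem_ker, RingHom.comp_apply] at hf ⊢
      rw [hf, map_zero]
    · have h1 : e2 ∈ m := by rw [hm, he2]; simp
      rw [← h] at h1
      simp [P1, RingHom.mem_ker, he2] at h1
  have hh : 2 ≤ m.height := by
    have a1 := Ideal.height_add_one_le_of_lt_of_isPrime h01
    have a2 := Ideal.height_add_one_le_of_lt_of_isPrime h12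
    calc (2 : ℕ∞) = 0 + 1 + 1 := by norm_num
      _ ≤ (⊥ : Ideal S).height + 1 + 1 := by gcongr; exact zero_le
      _ ≤ P1.height + 1 := by gcongr
      _ ≤ m.height := a2
  rintro ⟨-, hCM⟩
  obtain ⟨rs, hrs, hreg, hlen⟩ := hCM m
  rw [IsLocalization.AtPrime.ringKrullDim_eq_height m] at hlen
  have hlen2 : 2 ≤ rs.length := by
    have h9 : (rs.length : ℕ∞) = m.height := WithBot.coe_injective hlen
    rw [← h9] at hh
    exact_mod_cast hh
  obtain ⟨a, b, rest, rfl⟩ : ∃ a b rest, rs = a :: b :: rest := by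
    rcases rs with _ | ⟨a, _ | ⟨b, rest⟩⟩
    · simp at hlen2
    · simp at hlen2
    · exact ⟨a, b, rest, rfl⟩
  have hw := hreg.toIsWeaklyRegular
  rw [RingTheory.Sequence.isWeaklyRegular_cons_iff, RingTheory.Sequence.isWeaklyRegular_cons_iff]
    at hw
  obtain ⟨ha, hb, -⟩ := hw
  obtain ⟨⟨f, u⟩, rfl⟩ := IsLocalization.mk'_surjective m.primeCompl a
  obtain ⟨⟨g, v⟩, rfl⟩ := IsLocalization.mk'_surjective m.primeCompl b
  dsimp only at ha hb hrs
  have hf : f ∈ m := (IsLocalization.AtPrime.mk'_mem_maximal_iff _ m f u).1 (hrs _ (by simp))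
  have hg : g ∈ m := (IsLocalization.AtPrime.mk'_mem_maximal_iff _ m g v).1 (hrs _ (by simp))
  have hf0 : f ≠ 0 := by
    rintro rfl
    rw [IsLocalization.mk'_zero] at ha
    exact IsSMulRegular.not_zero ha
  have hswap : g * xT f = f * xT g := by
    rw [← sub_eq_zero]
    refine hinj _ fun γ _ => ?_
    rw [map_sub, map_mul, map_mul, hxT f hf, hxT g hg]
    ring
  have hz := (isSMulRegular_quotient_iff_mem_of_smul_mem _ _).1 hb
    (algebraMap _ (Localization.AtPrime m) (xT f)) (by
      rw [Submodule.mem_smul_pointwise_iff_exists]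
      refine ⟨IsLocalization.mk' _ (u * xT g) v, Submodule.mem_top, ?_⟩
      rw [smul_eq_mul, smul_eq_mul, ← IsLocalization.mk'_mul, mul_comm (IsLocalization.mk' _ g v),
        IsLocalization.mul_mk'_eq_mk'_of_mul]
      apply IsLocalization.mk'_eq_of_eq
      simp only [Submonoid.coe_mul]
      linear_combination (u * v : S) * hswap)
  rw [Submodule.mem_smul_pointwise_iff_exists] at hz
  obtain ⟨z, -, hz⟩ := hz
  obtain ⟨⟨h, w⟩, rfl⟩ := IsLocalization.mk'_surjective m.primeCompl z
  dsimp only at hz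
  rw [smul_eq_mul, ← IsLocalization.mk'_mul, IsLocalization.mk'_eq_iff_eq_mul, ← map_mul] at hz
  have hz2 := IsLocalization.injective (Localization.AtPrime m) m.primeCompl_le_nonZeroDivisors hz
  obtain ⟨s, hs1, hs⟩ : ∃ s, cf s = 1 ∧ ev s f ≠ 0 := by
    by_contra hcon
    push Not at hcon
    exact hf0 (hinj f hcon)
  have h5 := congrArg (ev s) hz2
  rw [map_mul, map_mul, hxT f hf] at h5
  have h6 : ev s h = X * ev s ((u * w : m.primeCompl) : S) := by
    apply mul_left_cancel₀ hs
    rw [h5, hs1]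
    simp
    ring
  have h7 : (ev s h).coeff 1 = 0 := hone _ _
  rw [h6, show (1 : ℕ) = 0 + 1 from rfl, coeff_X_mul, hconst] at h7
  exact (u * w).2 h7

lemma ind_not_CM [Infinite k] : ¬ IsCM (ind (act (k := k))) := by
  have := ind_domain (k := k)
  refine abs_not_CM (k := k) evAt 1 (fun g => g 0 0) const0 (fun f g => (f.1 g).2) ?_ xT ?_
    (sq 1) (sq 0) ?_ ?_ ?_
  · intro f hf
    exact ext0 f fun s => Subtype.ext (hf _ (by simp [uu]))
  · intro f hf γ
    have := (const0 f γ).trans hf
    simp only [evAt, RingHom.coe_mk, MonoidHom.coe_mk, OneHom.coe_mk] at this ⊢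
    simp [xT, TT, this, smul_eq_C_mul, mul_assoc]
  · intro h1
    have := congrArg (evAt (uu (1 : k))) h1
    rw [map_zero] at this
    simp [evAt, sq, uu] at this
  · simp [evAt, sq]
  · simp [evAt, sq]

end example_

theorem result (k : Type) [Field k] [IsAlgClosed k] (p : ℕ) [Fact p.Prime] [CharP k p] :
    ∃ (R : Type) (_ : CommRing R) (_ : Algebra k R) (ρ : Borel k →* (R ≃ₐ[k] R)),
      IsRational ρ ∧ IsCM R ∧ ¬ IsCM (ind ρ) :=
  ⟨Cusp k, inferInstance, inferInstance, act, act_rational, cusp_CM, ind_not_CM⟩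

end Pool.Agent.Results.MP_271f8e_al.CuspInduction
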